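import Pool.Agent.Helper39.KL.Final

/-!
# A left cell of the affine Weyl group of type D4~ that is not a union of sign types
-/

namespace Pool.Agent.Results.MP_eee0a5_al.NotUnionSignTypes

open Pool.Agent.Helper39.KL

/-- `Γ` is a left cell: an equivalence class of the left preorder of the basis `C` -/
def IsLeftCell (C : W → H) (Γ : Set W) : Prop :=
  ∃ w, Γ = {y | LeftLE C y w ∧ LeftLE C w y}

/-- `T` is a sign type: a nonempty set of all elements with given signs `X` of the `k w α`,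
`α` a root -/
def IsSignType (k : W → (Fin 4 → ℤ) → ℤ) (T : Set W) : Prop :=
  T.Nonempty ∧ ∃ X : (Fin 4 → ℤ) → ℤ, T = {w | ∀ α, Root4 α → (k w α).sign = X α}

/-- There is exactly one Kazhdan-Lusztig basis `C`, there is an alcove form `k`, and for these
there are a left cell `Γ` and a sign type `T` with `s₄ x ∈ Γ ∩ T` and `x ∈ T`, `x ∉ Γ`, where
`x = s₀ s₁ s₃ s₂ s₀ s₁ s₃ s₂`. -/
theorem result :
    (∃! C : W → H, IsKL C) ∧
    (∃ k, IsAlcove k) ∧
    ∀ C, IsKL C → ∀ k, IsAlcove k →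
      ∃ Γ T : Set W, IsLeftCell C Γ ∧ IsSignType k T ∧
        s 4 * (s 0 * s 1 * s 3 * s 2 * s 0 * s 1 * s 3 * s 2) ∈ Γ ∩ T ∧
        s 0 * s 1 * s 3 * s 2 * s 0 * s 1 * s 3 * s 2 ∈ T ∧
        s 0 * s 1 * s 3 * s 2 * s 0 * s 1 * s 3 * s 2 ∉ Γ := by
  have e : s 0 * s 1 * s 3 * s 2 * s 0 * s 1 * s 3 * s 2 = x0 * wK * s 2 := by
    unfold x0 wK
    simp only [mul_assoc]
  rw [e]
  refine ⟨?_, halc.exists_k, ?_⟩
  · obtain ⟨C, hC⟩ := hK1.exists_KL
    exact ⟨C, hC, fun C' hC' => hK1.unique_KL C' C hC' hC⟩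
  · intro C hC k hk
    refine ⟨{y | LeftLE C y (s 4 * (x0 * wK * s 2)) ∧ LeftLE C (s 4 * (x0 * wK * s 2)) y},
      {w | ∀ α, Root4 α → (k w α).sign = (k (s 4 * (x0 * wK * s 2)) α).sign},
      ⟨_, rfl⟩, ⟨⟨s 4 * (x0 * wK * s 2), fun _ _ => rfl⟩, _, rfl⟩, ⟨?_, fun _ _ => rfl⟩,
      halc.same k hk, fun h => not_le C hC h.1⟩
    exact ⟨Relation.ReflTransGen.refl, Relation.ReflTransGen.refl⟩

end Pool.Agent.Results.MP_eee0a5_al.NotUnionSignTypes
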